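import Pool.Agent.R949.WH.Adm
set_option autoImplicit false

/-! # MP_6bfd89_an: an admissible symbol whose coanalytic Toeplitz operator is weakly hypercyclic

The unit circle is `Circ = ℝ/ℤ` (`t` stands for `exp (2 π i t) = fourier 1 t`), `mu` is normalised
Lebesgue measure, `Hardy 2` is the closed subspace of `L²` of the functions whose Fourier
coefficients of negative index vanish, and `IsHInf g G` says that `g` is a bounded holomorphic
function on the open unit disc whose radial limits are given by `G` almost everywhere.
`Admissible g G` is the admissibility of the problem: `g(𝔻) ∩ 𝔻 = ∅`, `|G| > 1` almost everywhere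
and `log (|G| - 1)` is not integrable. -/

open MeasureTheory AddCircle Filter Topology Complex
open scoped ComplexConjugate ENNReal
namespace Pool.Agent.Results.MP_6bfd89_an.AdmissibleWeaklyHypercyclic
open Pool.Agent.R949.WH

/-- There is an admissible `g` such that the adjoint `T` of the analytic Toeplitz operator
`M f = g f` on `H²` is weakly hypercyclic, and so also `1`-weakly hypercyclic. -/
theorem result :
    ∃ (g : ℂ → ℂ) (G : Circ → ℂ), Admissible g G ∧
      ∃ M T : Hardy 2 →L[ℂ] Hardy 2, AnalyticToeplitz G M ∧ IsAdjoint M T ∧
        WeaklyHypercyclic T ∧ OneWeaklyHypercyclic T :=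
  main_show

end Pool.Agent.Results.MP_6bfd89_an.AdmissibleWeaklyHypercyclic
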